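import Pool.Agent.T9h92.MB2.Mat

/-!
# The Moebius function of the refinement order: words of increments

For `λ, ρ` in `Λ_n` let `words λ ρ` be the set of the words `v_1 v_2 … v_m` (`v_i ≥ 2`) such that
replacing successively a part `v_i` by `v_i + 1` (`i = 1, …, m`; each step uses up one part `1`) leads
from the parts `≥ 2` of `λ` to the parts `≥ 2` of `ρ`, and such that for consecutive letters
`v_{i+1} = v_i - 1` or `v_{i+1} > v_i`.  Put `N(λ, ρ) = (-1)^{ℓ(λ) - ℓ(ρ)} |words λ ρ|`, where `ℓ` is the
number of parts; this is `0` unless `λ` and `ρ` have equally many parts `≥ 2`.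

* If `ρ` has exactly one part `≥ 2` more than `λ`, and a part `2`, then `μ(λ, ρ)` is
  `(-1)^{ℓ(λ) - ℓ(ρ)}` times the number of the words from `λ` to the partition `ρ⁻` that one gets from
  `ρ` by splitting a part `2` into `1 + 1`.
* If `ρ` has as many parts `≥ 2` as `λ`, and no part `2` (or `λ` is not `≤ ρ⁻`), then
  `μ(λ, ρ) = N(λ, ρ)`.
* For ALL pairs, `μ(λ, ρ) = S(λ, ρ) - S(λ, ρ⁻)` (the second term only if `2` is a part of `ρ`), where
  `S = N - N T N + N T N T N - …` and `T(σ, τ) = 1` if `σ ≤ τ`, `τ` has fewer parts `≥ 2` than `σ`, and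
  merging two parts `1` of `σ` does not give a partition `≤ τ`, otherwise `T(σ, τ) = 0`.  The sum has at
  most `d + 1` terms, `d` being the number of parts `≥ 2` of `λ` minus that of `ρ`.

(With the vanishing theorem of `LargeParts` this covers every pair in which `ρ` has more parts `≥ 2` than
`λ`.)

Idea.  `S` is the inverse of the kernel `K(y, z) = [y ≤ z` and merging two ones of `y` leaves the set of
the partitions `≤ z]` (file `K1H55/MB/Ord.lean`).  For `y, z` with equally many parts `≥ 2`, `K(y, z) = 1`
iff there is a word from `y` to `z` all of whose consecutive letters are forbidden pairs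
(`v_{i+1} = v_i` or `v_{i+1} ≤ v_i - 2`), and this word is unique.  One direction uses a weight
`ψ : ℕ → ℕ` with `ψ(x + y) ≥ ψ(x) + ψ(y)` and `ψ(v + 1) = ψ(v)` for the letters `v` of the word.  In the
free algebra `∑ (words without forbidden pairs, with sign)` is inverse to `∑ (words with forbidden pairs
only)`; this gives the diagonal blocks.
-/

set_option autoImplicit false

namespace Pool.Agent.Results.MP_84e666_co.GoodWords

open Pool.Agent.K1H55.MB Pool.Agent.T9h92.MB2

/-- `Lam n`: the partitions of `n` with the refinement order, `mu` its Moebius function, `big` the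
number of parts `≥ 2`, `D r` the partition `r` with one part `2` replaced by `1 + 1`, `NN` and `TT` the
matrices `N` and `T` above. -/
theorem result (n : ℕ) (l r : Lam n) :
    -- one part `≥ 2` more
    (big r.parts = big l.parts + 1 → 2 ∈ r.parts →
      mu l r = (-1) ^ (Multiset.card l.parts - Multiset.card r.parts) *
        ((words l (D r)).ncard : ℤ)) ∧
    -- equally many parts `≥ 2`
    (big r.parts = big l.parts → (2 ∉ r.parts ∨ ¬ l ≤ D r) →
      mu l r = (-1) ^ (Multiset.card l.parts - Multiset.card r.parts) *
        ((words l r).ncard : ℤ)) ∧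
    -- all pairs
    mu l r = ∑ t ∈ Finset.range (big l.parts - big r.parts + 1),
        (-1 : ℤ) ^ t * (NN n * (TT n * NN n) ^ t) l r -
      if 2 ∈ r.parts then ∑ t ∈ Finset.range (big l.parts - big (D r).parts + 1),
        (-1 : ℤ) ^ t * (NN n * (TT n * NN n) ^ t) l (D r) else 0 := by
  have hcard : 2 ∈ r.parts → Multiset.card (D r).parts = Multiset.card r.parts + 1 := by
    intro h
    rw [D_parts h, Multiset.card_cons, Multiset.card_cons, Multiset.card_erase_of_mem h]
    have := Multiset.card_pos_iff_exists_mem.2 ⟨2, h⟩
    exact congrArg (· + 1) (Nat.succ_pred_eq_of_pos this)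
  have hbig : 2 ∈ r.parts → big (D r).parts + 1 = big r.parts := by
    intro h2
    rw [D_parts h2, big_cons, big_cons]
    conv_rhs => rw [← Multiset.cons_erase h2, big_cons]
    norm_num
  refine ⟨?_, ?_, ?_⟩
  · intro h h2
    rw [H_rec, H_zero l r (by omega), if_pos h2, zero_sub,
      H_words l (D r) (by have := hbig h2; omega), hw_eq, hcard h2]
    rcases Set.eq_empty_or_nonempty (words l (D r)) with he | ⟨w, hw⟩
    · rw [he]
      simp
    · have h3 := Path.length_card hw.2
      rw [hcard h2] at h3
      obtain ⟨c, hc⟩ : ∃ c, Multiset.card l.parts = Multiset.card r.parts + 1 + c := ⟨w.length, h3⟩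
      rw [hc, show Multiset.card r.parts + 1 + c - (Multiset.card r.parts + 1) = c by omega,
        show Multiset.card r.parts + 1 + c - Multiset.card r.parts = c + 1 by omega, pow_succ]
      ring
  · intro h h2
    rw [H_rec, H_words l r h, hw_eq]
    rcases h2 with h2 | h2
    · rw [if_neg h2, sub_zero]
    · have : H l (D r) = 0 := by
        by_contra hc
        exact h2 (H_ne hc)
      rw [this, ite_self, sub_zero]
  · rw [H_rec, H_all l r, H_all l (D r)]

end Pool.Agent.Results.MP_84e666_co.GoodWords
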