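import Pool.Agent.T9h92.MB2.One

/-!
# The Moebius function `μ(λ, ·)` for the partitions `λ` with exactly two parts `≥ 2`

Let `λ = ⟨k, q, 1^a⟩` with `k ≥ q ≥ 2`.  For `i ≥ j` put `c(i, j) = 0` if `i < k` or `j < q`;
`c(i, j) = 1` if `i ≥ k > j ≥ q`; and for `i ≥ j ≥ k`, with the Fibonacci numbers `F`
(`F_0 = 0`, `F_1 = 1`),

* `c(i, j) = F_{j-k+3}` if `i > j` and `c(j, j) = F_{j-k+1}`, when `q < k`;
* `c(i, j) = F_{j-k+1}` if `i > j`, `c(k, k) = 1` and `c(j, j) = F_{j-k-1}` for `j > k`, when `q = k`.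

Let `h(i, j) = (-1)^{i+j+k+q} c(i, j)` and `g(m) = -∑_{i + j = m, i ≥ j} h(i, j)`.  Then, for every `ρ`,

* `μ(λ, ρ) = h(i, j)`          if `ρ = ⟨i, j, 1^b⟩`, `i ≥ j ≥ 3`;
* `μ(λ, ρ) = g(m)`             if `ρ = ⟨m, 1^b⟩`, `m ≥ 2`;
* `μ(λ, ρ) = h(i, 2) - g(i)`   if `ρ = ⟨i, 2, 1^b⟩`, `i ≥ 2`;
* `μ(λ, ρ) = -h(i, j)`         if `ρ = ⟨i, j, 2, 1^b⟩`, `i ≥ j ≥ 2`;
* `μ(λ, ρ) = 0`                for all other `ρ`.

Proof: `h` is the inverse of the kernel of `GoodWords` on the partitions with two parts `≥ 2`; and for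
every `λ` with at least two parts `≥ 2` the sums `∑_i μ(λ, D^i ρ)` over the splittings of parts `2` of
`ρ` add up to `0` when `ρ` runs through the partitions whose parts `≥ 2` have a given sum `m ≥ 1`.
-/

set_option autoImplicit false

namespace Pool.Agent.Results.MP_84e666_co.TwoLargeParts

open Pool.Agent.K1H55.MB Pool.Agent.T9h92.MB2

/-- the numbers `c(i, j)` -/
def c (k q i j : ℕ) : ℕ :=
  if i < k ∨ j < q ∨ i < j then 0
  else if j < k then 1
  else if q < k then (if i = j then Nat.fib (j - k + 1) else Nat.fib (j - k + 3))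
  else if i = j then (if j = k then 1 else Nat.fib (j - k - 1)) else Nat.fib (j - k + 1)

/-- the numbers `h(i, j)` -/
def h (k q i j : ℕ) : ℤ := (-1) ^ (i + j + k + q) * (c k q i j : ℤ)

/-- the numbers `g(m)` -/
def g (k q m : ℕ) : ℤ := -∑ j ∈ Finset.range (m + 1), h k q (m - j) j

lemma h_eq (k q i j : ℕ) : h k q i j = hh k q i j := rfl

lemma bigs_rep (s : Multiset ℕ) (b : ℕ) (hs : ∀ a ∈ s, 2 ≤ a) :
    bigs (s + Multiset.replicate b 1) = s := by
  unfold bigs
  rw [Multiset.filter_add, Multiset.filter_eq_self.2 hs, Multiset.filter_eq_nil.2, add_zero]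
  intro a ha
  rw [Multiset.eq_of_mem_replicate ha]
  norm_num

/-- `Lam n`: the partitions of `n` with the refinement order, `mu` its Moebius function, `big` the
number of parts `≥ 2`, `D r` the partition `r` with one part `2` replaced by `1 + 1`, `bigs` the
multiset of the parts `≥ 2`. -/
theorem result (n k q a : ℕ) (l r : Lam n) (hq : 2 ≤ q) (hqk : q ≤ k)
    (hl : l.parts = k ::ₘ q ::ₘ Multiset.replicate a 1) :
    (∀ i j b, 3 ≤ j → j ≤ i → r.parts = i ::ₘ j ::ₘ Multiset.replicate b 1 →
      mu l r = h k q i j) ∧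
    (∀ m b, 2 ≤ m → r.parts = m ::ₘ Multiset.replicate b 1 → mu l r = g k q m) ∧
    (∀ i b, 2 ≤ i → r.parts = i ::ₘ 2 ::ₘ Multiset.replicate b 1 →
      mu l r = h k q i 2 - g k q i) ∧
    (∀ i j b, 2 ≤ j → j ≤ i → r.parts = i ::ₘ j ::ₘ 2 ::ₘ Multiset.replicate b 1 →
      mu l r = -h k q i j) ∧
    ((big r.parts = 0 ∨ 4 ≤ big r.parts ∨ (big r.parts = 3 ∧ 2 ∉ r.parts)) → mu l r = 0) := by
  have hlb : bigs l.parts = {k, q} := by
    rw [hl]
    have := bigs_rep {k, q} a (by
      intro x hx
      simp only [Multiset.insert_eq_cons, Multiset.mem_cons, Multiset.mem_singleton] at hx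
      omega)
    simpa [Multiset.insert_eq_cons] using this
  have hl2 : big l.parts = 2 := by rw [← card_bigs, hlb]; rfl
  have htwo : ∀ z : Lam n, ∀ i j, bigs z.parts = {i, j} → 2 ≤ j → j ≤ i → H l z = h k q i j := by
    intro z i j hz hj hji
    rw [H_words l z (by rw [← card_bigs, hz, hl2]; rfl), h_eq]
    exact H_two hlb hq hqk _ _ _ _ rfl hz hj hji
  have hone : ∀ z : Lam n, ∀ m, bigs z.parts = {m} → 2 ≤ m → H l z = g k q m :=
    fun z m hz hm => H_one hlb hq hqk hm hz
  have hzero : ∀ z : Lam n, big z.parts = 0 → H l z = 0 := by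
    intro z hz
    by_contra hc
    obtain ⟨b, hb, h1⟩ := Ref.part (le_def.1 (H_ne hc)) (a := k) (by rw [hl]; simp)
    have : b ∈ bigs z.parts := Multiset.mem_filter.2 ⟨hb, by omega⟩
    have := Multiset.card_pos_iff_exists_mem.2 ⟨b, this⟩
    rw [card_bigs] at this
    omega
  have hbig : 2 ∈ r.parts → bigs r.parts = 2 ::ₘ bigs (D r).parts := by
    intro h2
    rw [D_parts h2, bigs_cons_neg _ (by norm_num), bigs_cons_neg _ (by norm_num)]
    conv_lhs => rw [← Multiset.cons_erase h2, bigs_cons_pos _ le_rfl]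
  refine ⟨?_, ?_, ?_, ?_, ?_⟩
  · intro i j b hj hji hr
    have hrb : bigs r.parts = {i, j} := by
      rw [hr]
      have := bigs_rep {i, j} b (by
        intro x hx
        simp only [Multiset.insert_eq_cons, Multiset.mem_cons, Multiset.mem_singleton] at hx
        omega)
      simpa [Multiset.insert_eq_cons] using this
    have h2 : 2 ∉ r.parts := by
      intro h2
      have : 2 ∈ bigs r.parts := Multiset.mem_filter.2 ⟨h2, le_rfl⟩
      rw [hrb] at this
      simp only [Multiset.insert_eq_cons, Multiset.mem_cons, Multiset.mem_singleton] at this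
      omega
    rw [H_rec, if_neg h2, sub_zero]
    exact htwo r i j hrb (by omega) hji
  · intro m b hm hr
    have hrb : bigs r.parts = {m} := by
      rw [hr]
      have := bigs_rep {m} b (by
        intro x hx
        rw [Multiset.mem_singleton] at hx
        omega)
      simpa using this
    rw [H_rec, hone r m hrb hm]
    by_cases h2 : 2 ∈ r.parts
    · have h3 := hbig h2
      have h4 : big (D r).parts = 0 := by
        rw [hrb] at h3
        have := congrArg Multiset.card h3
        rw [Multiset.card_singleton, Multiset.card_cons, card_bigs] at this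
        omega
      rw [if_pos h2, hzero _ h4, sub_zero]
    · rw [if_neg h2, sub_zero]
  · intro i b hi hr
    have hrb : bigs r.parts = {i, 2} := by
      rw [hr]
      have := bigs_rep {i, 2} b (by
        intro x hx
        simp only [Multiset.insert_eq_cons, Multiset.mem_cons, Multiset.mem_singleton] at hx
        omega)
      simpa [Multiset.insert_eq_cons] using this
    have h2 : 2 ∈ r.parts := by rw [hr]; simp
    have h3 := hbig h2
    rw [hrb, Multiset.pair_comm, Multiset.insert_eq_cons] at h3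
    have h4 := ((Multiset.cons_inj_right _).1 h3).symm
    rw [H_rec, if_pos h2, htwo r i 2 hrb le_rfl hi, hone _ i h4 hi]
  · intro i j b hj hji hr
    have hrb : bigs r.parts = {i, j, 2} := by
      rw [hr]
      have := bigs_rep {i, j, 2} b (by
        intro x hx
        simp only [Multiset.insert_eq_cons, Multiset.mem_cons, Multiset.mem_singleton] at hx
        omega)
      simpa [Multiset.insert_eq_cons] using this
    have h2 : 2 ∈ r.parts := by rw [hr]; simp
    have h3 := hbig h2
    have h4 : ({i, j, 2} : Multiset ℕ) = 2 ::ₘ {i, j} := by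
      simp only [Multiset.insert_eq_cons]
      rw [show ({2} : Multiset ℕ) = 2 ::ₘ 0 from rfl, Multiset.cons_swap j 2,
        Multiset.cons_swap i 2]
      rfl
    rw [hrb, h4] at h3
    have h5 := ((Multiset.cons_inj_right _).1 h3).symm
    have h6 : big r.parts = 3 := by rw [← card_bigs, hrb]; rfl
    rw [H_rec, H_zero l r (by omega), if_pos h2, zero_sub, htwo _ i j h5 hj hji]
  · rintro (h0 | h0 | ⟨h0, h2⟩)
    · by_contra hc
      obtain ⟨b, hb, h1⟩ := Ref.part (le_def.1 (mu_ne hc)) (a := k) (by rw [hl]; simp)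
      have : b ∈ bigs r.parts := Multiset.mem_filter.2 ⟨hb, by omega⟩
      have := Multiset.card_pos_iff_exists_mem.2 ⟨b, this⟩
      rw [card_bigs] at this
      omega
    · rw [H_rec, H_zero l r (by omega)]
      split_ifs with h2
      · have h3 := congrArg Multiset.card (hbig h2)
        rw [card_bigs, Multiset.card_cons, card_bigs] at h3
        rw [H_zero l (D r) (by omega), sub_zero]
      · rw [sub_zero]
    · rw [H_rec, H_zero l r (by omega), if_neg h2, sub_zero]

end Pool.Agent.Results.MP_84e666_co.TwoLargeParts
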